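import Pool.Agent.Helper92.GG.Main
import Pool.Agent.Helper92.GG.All

/-! # Algebraic graphs and Erdős' girth conjecture

For `m = 4` and `m ≥ 6` no family of graphs of bounded algebraic complexity (vertices: points of
varieties over finite fields; adjacency: a boolean combination of polynomial equations) whose
girth exceeds `2 m` over suitable extensions has `c n ^ (1 + 1 / m)` edges. -/

set_option autoImplicit false

namespace Pool.Agent.Results.MP_97687e_co.AlgebraicGirth

open MvPolynomial
open Pool.Agent.Helper92.GG (Pts IsVar algGraph)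

universe u

theorem result (m : ℕ) (hm : m = 4 ∨ 6 ≤ m) (N d D : ℕ) (hd : 1 ≤ d) :
    ∃ n₀ : ℕ, 0 < n₀ ∧ ∀ c : ℝ, 0 < c → ∃ C : ℝ,
      ∀ (F : Type u) [Field F] [Finite F] (A B : Set (MvPolynomial (Fin N) F))
        (S : Fin D → Set (MvPolynomial (Fin N ⊕ Fin N) F))
        (g : Fin D → MvPolynomial (Fin N ⊕ Fin N) F),
        IsVar A d D → IsVar B d D →
        (∀ i, ∀ f ∈ S i, f.totalDegree ≤ D) → (∀ i, (g i).totalDegree ≤ D) →
        ∀ (E : Type u) [Field E] [Algebra F E] [Finite E], n₀ ∣ Module.finrank F E →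
          ((2 * m : ℕ) : ℕ∞) < (algGraph A B S g E).egirth →
          ∀ (E' : Type u) [Field E'] [Algebra F E'] [Finite E'],
            c * (Nat.card E' : ℝ) ^ d ≤ (Nat.card (Pts A E' ⊕ Pts B E') : ℝ) →
            ((algGraph A B S g E').edgeSet.ncard : ℝ) ≤
              C * (Nat.card (Pts A E' ⊕ Pts B E') : ℝ) ^
                (1 + 1 / (m : ℝ) - 1 / ((m : ℝ) * d)) :=
  Pool.Agent.Helper92.GG.main_of_FINITE3 Pool.Agent.Helper92.GG.all_FINITE3 m hm N d D hd

end Pool.Agent.Results.MP_97687e_co.AlgebraicGirth
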