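import Mathlib
import Pool.Agent.Helper50.GC.ALG
import Pool.Agent.Helper37.GC.FIL
import Pool.Agent.Helper28.GC.GAM
import Pool.Agent.Helper28.GC.REL
import Pool.Agent.Helper28.GC.CARD
import Pool.Agent.Helper34.GC.WORD
import Pool.Agent.Helper41.GC.DET
import Pool.Agent.Helper41.GC.CNT
import Pool.Agent.Helper11.GC.GRA
import Pool.Agent.Helper97.GC.CYC
import Pool.Agent.Helper85.GC.COPY
import Pool.Agent.Helper69.GC.GRP
import Pool.Agent.Helper69.GC.FIN

set_option autoImplicit false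

namespace Pool.Agent.Results.MP_97687e_co.CyclesTwoModFour

open Pool.Agent.Helper69.GC

/-- For every odd `k ≥ 3` there are `c > 0` and `N` such that for every `n ≥ N` some graph on `n`
vertices has at least `c n^(1 + 1/v)` edges, `v = ⌊4k/3⌋ - 1`, and each of its cycles of length at
most `2k` has length divisible by `4` and at least `4(k+1)/3`. -/
theorem result (k : ℕ) (hodd : Odd k) (hk : 3 ≤ k) :
    ∃ c : ℝ, 0 < c ∧ ∃ N : ℕ, ∀ n : ℕ, N ≤ n →
      ∃ G : SimpleGraph (Fin n),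
        (∀ (u : Fin n) (w : G.Walk u u), w.IsCycle → w.length ≤ 2 * k →
          4 ∣ w.length ∧ 4 * (k + 1) ≤ 3 * w.length) ∧
        c * (n : ℝ) ^ ((1 : ℝ) + 1 / ((4 * k / 3 - 1 : ℕ) : ℝ)) ≤ (G.edgeSet.ncard : ℝ) := by
  have hG := st_GAM st_ALG st_FIL
  have hR := st_REL hG st_WORD st_DET
  have hC := st_CNT st_ALG st_FIL hG
  have hQ := st_GRP st_ALG st_FIL hG hR hC st_CARD
  exact st_FIN hQ st_GRA st_CYC st_COPY k (Nat.odd_iff.mp hodd) hk

end Pool.Agent.Results.MP_97687e_co.CyclesTwoModFour
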