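import Mathlib
import Pool.Agent.Helper50.GX.Defs
import Pool.Agent.Helper50.GX.FIN2
import Pool.Agent.Helper94.GX.COPY
import Pool.Agent.Helper21.GX.DET
import Pool.Agent.Helper17.GX.DIV
import Pool.Agent.Helper89.GX.FLD
import Pool.Agent.Helper58.GX.GRP
import Pool.Agent.Helper95.GX.HAAR
import Pool.Agent.Helper35.GX.IDX
import Pool.Agent.Helper30.GX.MAT
import Pool.Agent.Helper7.GX.ORD
import Pool.Agent.Helper85.GX.PING
import Pool.Agent.Helper94.GX.PROD
import Pool.Agent.Helper37.GX.REL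

set_option autoImplicit false

namespace Pool.Agent.Results.MP_97687e_co.GirthThreeHalves

open Pool.Agent.Helper50.GX

/-- For all `m ≥ 1` and `n ≥ 2` there is a graph on `n` vertices without cycles of length at most
`2m` and with at least `n^(1 + 1/v) / 16` edges, where `v = 3 ⌈m/2⌉ - ⌈m/6⌉`. -/
theorem result (m n : ℕ) (hm : 1 ≤ m) (hn : 2 ≤ n) :
    ∃ G : SimpleGraph (Fin n),
      ((2 * m : ℕ) : ℕ∞) < G.egirth ∧
      (1 / 16 : ℝ) * (n : ℝ) ^ ((1 : ℝ) + 1 / ((3 * ((m + 1) / 2) - (m + 5) / 6 : ℕ) : ℝ)) ≤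
        (G.edgeSet.ncard : ℝ) := by
  have hMAT := st_MAT
  have hPROD := st_PROD hMAT
  have hREL := st_REL hPROD st_DET st_DIV st_ORD st_PING
  have hGRP := st_GRP hMAT hREL st_IDX
  obtain ⟨G, h1, h2⟩ := fin2_main hGRP st_HAAR st_FLD st_COPY ((m + 1) / 2) (by omega) n hn
  refine ⟨G, ?_, ?_⟩
  · have h3 : ((2 * m + 1 : ℕ) : ℕ∞) ≤ G.egirth := by
      rw [SimpleGraph.le_egirth]
      intro a w hw
      have := h1 a w hw
      exact_mod_cast (by omega : 2 * m + 1 ≤ w.length)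
    refine lt_of_lt_of_le ?_ h3
    exact_mod_cast Nat.lt_succ_self (2 * m)
  · have hv : 3 * ((m + 1) / 2) - (m + 5) / 6 =
        3 * ((m + 1) / 2) - 1 - ((m + 1) / 2 - 1) / 3 := by omega
    rw [hv]
    linarith

end Pool.Agent.Results.MP_97687e_co.GirthThreeHalves
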